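import Pool.Agent.MWGX.StmtsA

/-!
# Squad MWGX, row OXV (MP_23468a_al): what the congruence keeps
-/

set_option autoImplicit false

namespace Pool.Agent.MWGX.H77

open Pool.Agent.Helper14_MV Pool.Agent.Helper2_MV
open Pool.Agent.MWGX

theorem oxv (h1 : Pool.Agent.MWGQ.OlrStmt) (h2 : Pool.Agent.MWGQ.CntStmt) : OxvStmt := by
  intro n β hG hE w w' hw
  have k1 := h2 n β hG w w' hw
  have k2 := h2 n β hG w' w hw.symm
  refine ⟨⟨?_, ?_, ?_, ?_, ?_⟩, fun d => (k1 d).2.2⟩
  · intro d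
    constructor
    · intro h
      rw [(k1 d).1 (by omega), h]
    · intro h
      rw [(k2 d).1 (by omega), h]
  · intro d
    exact ⟨(k1 d).2.1, (k2 d).2.1⟩
  · intro s hs d hd
    exact (h1 n β hG hE w w' hw d s hs hd).1
  · intro s hs d hd
    exact (h1 n β hG hE w w' hw d s hs hd).2.1
  · intro s hs d hd
    exact (h1 n β hG hE w w' hw d s hs hd).2.2

end Pool.Agent.MWGX.H77
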